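import Pool.Agent.N303.KS.Cnt
import Pool.Agent.H21R2.Defs
import Pool.Agent.W661.RC.Stm2

/-!
# Project HS (Thom's group is not sofic): statements, part A (combinatorics)
-/

set_option autoImplicit false

namespace Pool.Agent.N298.HS

open Pool.Agent.N303.KS (ct)
open Pool.Agent.H21R2 (IsSofic)
open Pool.Agent.W661.RC (HasT)

/-- ORD (Theorem A): let `K` be a Kazhdan subgroup of the sofic group `P`. Almost all points `x`
of a sofic approximation carry a finite group, with images of finitely many elements of the centre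
of `K`, such that the orders of the images are transported by the elements of the normalizer. -/
def S_ORD : Prop :=
  ∀ (P : Type) [Group P], IsSofic P → ∀ K : Subgroup P, HasT K → ∀ FL FG : Finset P,
    (∀ l ∈ FL, l ∈ K ∧ ∀ k ∈ K, l * k = k * l) →
    (∀ g ∈ FG, ∀ k : P, k ∈ K ↔ g * k * g⁻¹ ∈ K) →
    ∀ δ : ℝ, 0 < δ →
      ∃ (d : ℕ) (_ : 0 < d) (s : P → Equiv.Perm (Fin d)) (Q : Type) (_ : Group Q) (_ : Finite Q)
        (φ : Fin d → P → Q) (B : Fin d → Prop), ct B ≤ δ * d ∧ ∀ x, ¬ B x →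
          (∀ a ∈ FL, ∀ b ∈ FL, a * b ∈ FL → φ x (a * b) = φ x a * φ x b) ∧
          (∀ a ∈ FL, a ≠ 1 → φ x a ≠ 1) ∧
          ∀ g ∈ FG, ∀ l ∈ FL, g * l * g⁻¹ ∈ FL →
            orderOf (φ (s g x) (g * l * g⁻¹)) = orderOf (φ x l)

/-- PROB: the data of the two steps are contradictory. Here `α x`, `β x`, `γ x k` are the images
of `e_1`, `e_2` and of the central elements `c_k` of order `p ^ k`, `sa`, `sg`, `s1 k`, `s2 k` are
the permutations given by the element `a` of order three, by `g = diag(p, 1/p)` and by the elements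
which send `e_i` to `e_i + c_k`. -/
def S_PROB : Prop :=
  ∀ p : ℕ, p.Prime → ∃ (N : ℕ) (δ : ℝ), 0 < δ ∧
    ∀ (d : ℕ), 0 < d → ∀ (Q : Type) [Group Q] [Finite Q] (α β : Fin d → Q)
      (γ : Fin d → ℕ → Q) (sa sg : Equiv.Perm (Fin d)) (s1 s2 : ℕ → Equiv.Perm (Fin d))
      (B : Fin d → Prop), ct B ≤ δ * d →
      (∀ x, ¬ B x → Commute (α x) (β x)) →
      (∀ x, ¬ B x → ∀ k ≤ N, Commute (α x) (γ x k) ∧ Commute (β x) (γ x k)) →
      (∀ x, ¬ B x → ∀ k ≤ N, orderOf (γ x k) = p ^ k) →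
      (∀ x, ¬ B x → ∀ k ≤ N, orderOf (α (s1 k x) * γ (s1 k x) k) = orderOf (α x)) →
      (∀ x, ¬ B x → ∀ k ≤ N, orderOf (β (s2 k x) * γ (s2 k x) k) = orderOf (β x)) →
      (∀ x, ¬ B x → orderOf (β (sa x)) = orderOf (α x)) →
      (∀ x, ¬ B x → orderOf (α (sa x) * β (sa x)) = orderOf (β x)) →
      (∀ x, ¬ B x → orderOf (α (sa x)) = orderOf (α x * β x)) →
      (∀ x, ¬ B x → orderOf (α (sg x) ^ p) = orderOf (α x)) →
      (∀ x, ¬ B x → orderOf (β (sg x)) = orderOf (β x ^ p)) →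
      False

end Pool.Agent.N298.HS
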