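import Pool.Agent.W661.RC.Stm2

/-!
# Project HS (Thom's group is not sofic): statements, part B (property (T))
-/

set_option autoImplicit false

namespace Pool.Agent.N298.HS

open MeasureTheory
open Pool.Agent.W661.RC (HasT)

/-- MEAS: the spectral measure of a unit vector for commuting unitaries. -/
def S_MEAS : Prop :=
  ∀ (A : Type) [AddCommGroup A] [Countable A] (H : Type) [NormedAddCommGroup H]
    [InnerProductSpace ℂ H] [CompleteSpace H] (U : A → (H ≃ₗᵢ[ℂ] H)),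
    (∀ a b, U (a + b) = U a * U b) → ∀ ξ : H, ‖ξ‖ = 1 →
    ∃ μ : Measure (A → ℂ), IsProbabilityMeasure μ ∧
      (∀ᵐ χ ∂μ, (∀ a, ‖χ a‖ = 1) ∧ ∀ a b, χ (a + b) = χ a * χ b) ∧
      (∀ a, ‖U a ξ - ξ‖ ^ 2 = ∫ χ, ‖χ a - 1‖ ^ 2 ∂μ) ∧
      ∀ (T : H ≃ₗᵢ[ℂ] H) (s : A ≃+ A), (∀ a, T * U a = U (s a) * T) →
        ∀ E : Set (A → ℂ), MeasurableSet E →
          |μ.real E - μ.real {χ | (fun a => χ (s a)) ∈ E}| ≤ 2 * ‖T ξ - ξ‖

/-- REAL: almost invariant measures on the torus which are concentrated near the unit element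
are concentrated at the unit element. -/
def S_REAL : Prop :=
  ∃ C : ℝ, 0 < C ∧ ∀ (ν : Measure (ℂ × ℂ)) [IsProbabilityMeasure ν] (ε : ℝ), 0 ≤ ε →
    (∀ᵐ z ∂ν, ‖z.1‖ = 1 ∧ ‖z.2‖ = 1) →
    ν.real {z | 1 / 10 ≤ ‖z.1 - 1‖} ≤ ε → ν.real {z | 1 / 10 ≤ ‖z.2 - 1‖} ≤ ε →
    (∀ E : Set (ℂ × ℂ), MeasurableSet E →
      |ν.real E - ν.real {z | (z.1, z.2 * z.1 ^ 2) ∈ E}| ≤ ε ∧
      |ν.real E - ν.real {z | (z.1, z.2 * (starRingEnd ℂ z.1) ^ 2) ∈ E}| ≤ ε ∧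
      |ν.real E - ν.real {z | (z.1 * z.2 ^ 2, z.2) ∈ E}| ≤ ε ∧
      |ν.real E - ν.real {z | (z.1 * (starRingEnd ℂ z.2) ^ 2, z.2) ∈ E}| ≤ ε) →
    ν.real {z | z ≠ (1, 1)} ≤ C * ε

/-- PAD: almost invariant measures on the characters of `R × R`, `R = ℤ[1/p]`, which are
concentrated on the characters trivial on `(1,0)` and `(0,1)` are concentrated at the trivial
character. -/
def S_PAD : Prop :=
  ∃ C : ℝ, 0 < C ∧ ∀ (p : ℕ), p.Prime → ∀ (R : Type) [CommRing R] [Countable R] (q : R),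
    (p : R) * q = 1 → (∀ r : R, ∃ (k : ℕ) (n : ℤ), (p : R) ^ k * r = n) →
    ∀ (μ : Measure (R × R → ℂ)) [IsProbabilityMeasure μ] (ε : ℝ), 0 ≤ ε →
    (∀ᵐ χ ∂μ, (∀ a, ‖χ a‖ = 1) ∧ ∀ a b, χ (a + b) = χ a * χ b) →
    μ.real {χ | ¬ (χ (1, 0) = 1 ∧ χ (0, 1) = 1)} ≤ ε →
    (∀ E : Set (R × R → ℂ), MeasurableSet E →
      |μ.real E - μ.real {χ | (fun v => χ (-v.2, v.1 - v.2)) ∈ E}| ≤ ε ∧
      |μ.real E - μ.real {χ | (fun v => χ (p * v.1, q * v.2)) ∈ E}| ≤ ε) →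
    μ.real {χ | ∃ v, χ v ≠ 1} ≤ C * ε

/-- REL: relative property (T) of `(E_2(R) ⋉ R², R²)`, `R = ℤ[1/p]`, with a uniform constant. -/
def S_REL : Prop :=
  ∀ (p : ℕ), p.Prime → ∀ δ : ℝ, 0 < δ → ∃ ε : ℝ, 0 < ε ∧
    ∀ (R : Type) [CommRing R] [Countable R] (q : R),
    (p : R) * q = 1 → (∀ r : R, ∃ (k : ℕ) (n : ℤ), (p : R) ^ k * r = n) →
    ∀ (H : Type) [NormedAddCommGroup H] [InnerProductSpace ℂ H] [CompleteSpace H]
      (U : R × R → (H ≃ₗᵢ[ℂ] H)) (X Y : R → (H ≃ₗᵢ[ℂ] H)),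
      (∀ v w, U (v + w) = U v * U w) →
      (∀ t r s, X t * U (r, s) = U (r + t * s, s) * X t) →
      (∀ t r s, Y t * U (r, s) = U (r, s + t * r) * Y t) →
      ∀ ξ : H, ‖ξ‖ = 1 →
        (∀ t ∈ ({1, -1, 2, -2, (p : R), -(p : R), q, -q} : Set R),
          ‖X t ξ - ξ‖ ≤ ε ∧ ‖Y t ξ - ξ‖ ≤ ε) →
        ‖U (1, 0) ξ - ξ‖ ≤ ε → ‖U (0, 1) ξ - ξ‖ ≤ ε → ∀ v, ‖U v ξ - ξ‖ ≤ δ

/-- HEIS: the angle in representations of Heisenberg groups without central invariant vectors. -/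
def S_HEIS : Prop :=
  ∀ (R : Type) [CommRing R] (H : Type) [NormedAddCommGroup H] [InnerProductSpace ℂ H]
    [CompleteSpace H] (X Y Z : R → (H ≃ₗᵢ[ℂ] H)) (σ : R), σ * σ = 1 →
    (∀ r s, Z (r + s) = Z r * Z s) → (∀ r s, X r * Z s = Z s * X r) →
    (∀ r s, Y r * Z s = Z s * Y r) → (∀ r s, X r * Y s = Z (σ * r * s) * Y s * X r) →
    ∀ v w : H, (∀ r, X r v = v) → (∀ r, Y r w = w) →
      (∀ u : H, (∀ r, Z r u = u) → inner ℂ u v = 0 ∧ inner ℂ u w = 0) →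
      2 * ‖inner ℂ v w‖ ^ 2 ≤ ‖v‖ ^ 2 * ‖w‖ ^ 2

/-- OCT: the inequality on the octahedron. -/
def S_OCT : Prop :=
  ∀ (H : Type) [NormedAddCommGroup H] [InnerProductSpace ℂ H] (Q : Fin 6 → H →L[ℂ] H),
    (∀ i v, Q i (Q i v) = Q i v) → (∀ i v w, inner ℂ (Q i v) w = inner ℂ v (Q i w)) →
    (∀ i v, Q i (Q (i + 1) v) = Q (i + 1) (Q i v)) →
    (∀ i v, Q i (Q (i + 2) (Q (i + 1) v)) = Q (i + 2) (Q i (Q (i + 1) v))) →
    (∀ i v w, Q i v = v → Q (i + 2) w = w → Q (i + 1) v = 0 → Q (i + 1) w = 0 →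
      2 * ‖inner ℂ v w‖ ^ 2 ≤ ‖v‖ ^ 2 * ‖w‖ ^ 2) →
    ∀ f : Fin 6 → H, (∀ i, Q i (f i) = f i) → (∀ i, Q (i - 1) (f i) = f i) →
      (∀ i, Q (i + 1) (f i) = f i) →
      ∑ i, (‖f (i + 2) - Q i (f (i + 2))‖ ^ 2 + ‖f (i - 2) - Q i (f (i - 2))‖ ^ 2) ≤
        2 * ∑ i, ‖Q (i - 1) (Q (i + 1) (Q i
          ((4 : ℂ) • f i - f (i + 1) - f (i + 2) - f (i - 1) - f (i - 2))))‖ ^ 2

/-- HEX: in a unitary representation of the group of type `A₂` over any ring, vectors which are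
almost invariant under all root subgroups are close to invariant vectors. -/
def S_HEX : Prop :=
  ∃ C : ℝ, 0 < C ∧ ∀ (R : Type) [CommRing R] (H : Type) [NormedAddCommGroup H]
    [InnerProductSpace ℂ H] [CompleteSpace H] (x : Fin 6 → R → (H ≃ₗᵢ[ℂ] H)) (σ : Fin 6 → R),
    (∀ i, σ i * σ i = 1) →
    (∀ i r s, x i (r + s) = x i r * x i s) →
    (∀ i r s, x i r * x (i + 1) s = x (i + 1) s * x i r) →
    (∀ i r s, x i r * x (i + 2) s = x (i + 1) (σ i * r * s) * x (i + 2) s * x i r) →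
    ∀ (δ : ℝ) (ξ : H), (∀ i r, ‖x i r ξ - ξ‖ ≤ δ) →
      ∃ η : H, ‖η - ξ‖ ≤ C * δ ∧ ∀ i r, x i r η = η

/-- the roots of the group `K` -/
def RK (i j : Fin 8) : Prop := i.val ≤ 6 ∧ 4 ≤ j.val ∧ i ≠ j

/-- Steinberg relations for a set of roots -/
structure Rels (Φ : Fin 8 → Fin 8 → Prop) {R K : Type} [CommRing R] [Group K]
    (x : Fin 8 → Fin 8 → R → K) : Prop where
  add : ∀ i j, Φ i j → ∀ r s, x i j (r + s) = x i j r * x i j s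
  com : ∀ i j k l, Φ i j → Φ k l → j ≠ k → i ≠ l → ∀ r s, x i j r * x k l s = x k l s * x i j r
  mul : ∀ i j l, Φ i j → Φ j l → i ≠ l →
    ∀ r s, x i j r * x j l s = x i l (r * s) * x j l s * x i j r

/-- BG: bounded generation of `K` by `E_3` and root subgroups. -/
def S_BG : Prop :=
  ∀ (R : Type) [CommRing R] (K : Type) [Group K] (x : Fin 8 → Fin 8 → R → K), Rels RK x →
    Subgroup.closure {g | ∃ i j r, RK i j ∧ g = x i j r} = ⊤ →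
    ∀ (D : K → ℝ) (δ : ℝ), (∀ g h, D (g * h) ≤ D g + D h) → (∀ g, D g⁻¹ = D g) →
      (∀ i j r, RK i j → D (x i j r) ≤ δ) →
      (∀ g ∈ Subgroup.closure {g | ∃ i j r, RK i j ∧ 4 ≤ i.val ∧ j.val ≤ 6 ∧ g = x i j r},
        D g ≤ δ) →
      ∀ g, D g ≤ 20 * δ

/-- KT: the group `K` has property (T). -/
def S_KT : Prop :=
  ∀ (p : ℕ), p.Prime → ∀ (R : Type) [CommRing R] [Countable R] (q : R),
    (p : R) * q = 1 → (∀ r : R, ∃ (k : ℕ) (n : ℤ), (p : R) ^ k * r = n) →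
    ∀ (K : Type) [Group K] (x : Fin 8 → Fin 8 → R → K), Rels RK x →
      Subgroup.closure {g | ∃ i j r, RK i j ∧ g = x i j r} = ⊤ → HasT K

end Pool.Agent.N298.HS
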