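import Pool.Agent.N298.HS.Main
import Pool.Agent.N303.KT.ORD
import Pool.Agent.N769.KT.B
import Pool.Agent.N478.HS.MEAS
import Pool.Agent.N558.HS.REAL
import Pool.Agent.N711.HS.PAD
import Pool.Agent.N853.HS.REL
import Pool.Agent.N50.HS.HEIS
import Pool.Agent.N50.HS.OCT
import Pool.Agent.N495.HS.HEX
import Pool.Agent.N433.HS.BG
import Pool.Agent.N46.HS.KT

/-!
# Project HS: final assembly
-/

set_option autoImplicit false

namespace Pool.Agent.N298.HS

open Finset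
open Pool.Agent.N303.KS
open Pool.Agent.H21R2 (IsSofic hamm)
open Pool.Agent.W661.RC (HasT)
open Pool.Agent.N303.KT (ThmA ThmB)

noncomputable section

set_option linter.unusedSectionVars false

/-- subgroups of sofic groups are sofic -/
theorem sofic_inj {G G' : Type} [Group G] [Group G'] (f : G' →* G) (hf : Function.Injective f)
    (h : IsSofic G) : IsSofic G' := by
  classical
  intro A hA ε hε
  obtain ⟨n, hn, φ, h1, h2, h3⟩ := h (A.image f) (mem_image.2 ⟨1, hA, map_one f⟩) ε hε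
  refine ⟨n, hn, fun g => φ (f g), ?_, ?_, ?_⟩
  · simp only [map_one]; exact h1
  · intro a ha b hb hab
    simp only [map_mul]
    exact h2 _ (mem_image_of_mem f ha) _ (mem_image_of_mem f hb)
      (by rw [← map_mul]; exact mem_image_of_mem f hab)
  · intro a ha ha1
    exact h3 _ (mem_image_of_mem f ha) fun h4 => ha1 (hf (by rw [h4, map_one]))

theorem hasT_equiv {G G' : Type} [Group G] [Group G'] (e : G ≃* G') (h : HasT G) : HasT G' := by
  classical
  intro H _ _ _ π hπ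
  obtain ⟨v, hv, hv'⟩ := h H (π.comp e.toMonoidHom) (by
    intro K ε hε
    obtain ⟨v, hv, hv'⟩ := hπ (K.image e) ε hε
    exact ⟨v, hv, fun g hg => hv' (e g) (mem_image_of_mem _ hg)⟩)
  refine ⟨v, hv, fun g => ?_⟩
  have := hv' (e.symm g)
  simpa using this

theorem thmA_of (h : S_ORD) : ThmA := by
  intro P _ N hN hP hT A B hA δ hδ
  obtain ⟨d, hd, s, Q, i1, i2, φ, Bd, h1, h2⟩ := h P hP N hT A B
    (fun l hl => ⟨(hA l hl).1, fun k hk => ((hA l hl).2 k hk).symm⟩)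
    (fun g _ k => ⟨fun hk => hN.conj_mem k hk g, fun hk => by
      have := hN.conj_mem _ hk g⁻¹
      rwa [inv_inv, mul_assoc, mul_assoc, inv_mul_cancel, mul_one, inv_mul_cancel_left] at this⟩)
    δ hδ
  refine ⟨Fin d, Q, inferInstance, ⟨⟨0, hd⟩⟩, i1, i2, s, φ, Bd, ?_, h2⟩
  rw [Fintype.card_fin]
  exact h1

theorem main_of' (hB : ThmB) (hK : S_KT) : S_MAIN := by
  classical
  intro p hp R _ _ q r0 hq hR P _ x hx h1 h2 hS
  set M : Subgroup P := Subgroup.normalizer (KK x : Set P) with hM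
  have hKM : KK x ≤ M := Subgroup.le_normalizer
  set N : Subgroup M := (KK x).subgroupOf M with hN
  have hNn : N.Normal := Subgroup.normal_in_normalizer
  have hT : HasT N := hasT_equiv (Subgroup.subgroupOfEquivOfLe hKM).symm
    (hasT_KK hK hp q hq hR hx)
  have hM' : IsSofic M := sofic_inj M.subtype M.subtype_injective hS
  have cen : ∀ (l : P) (hl : Cen x l), ((⟨l, hKM hl.1⟩ : M) ∈ N ∧
      ∀ n ∈ N, n * (⟨l, hKM hl.1⟩ : M) = (⟨l, hKM hl.1⟩ : M) * n) := fun l hl =>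
    ⟨hl.1, fun n hn => Subtype.ext (hl.2 _ hn).symm⟩
  have n12 : ∀ t : R, x 1 2 t ∈ M := norm_x hx (by decide) (by decide)
  have n21 : ∀ t : R, x 2 1 t ∈ M := norm_x hx (by decide) (by decide)
  have n01 : ∀ t : R, x 0 1 t ∈ M := norm_x hx (by decide) (by decide)
  have n02 : ∀ t : R, x 0 2 t ∈ M := norm_x hx (by decide) (by decide)
  have na : aa x ∈ M := mul_mem (mul_mem (mul_mem (n12 _) (n21 _)) (n12 _)) (n12 _)
  have ng : gg x p q ∈ M :=
    mul_mem (mul_mem (mul_mem (mul_mem (mul_mem (n12 _) (n21 _)) (n12 _)) (n12 _)) (n21 _)) (n12 _)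
  have c7 : ∀ t : R, Cen x (x 0 7 t) := fun t => cen_x hx (by decide) t
  refine hB M N hNn hT p hp ⟨VV x 1 0, hKM (cen_VV hx 1 0).1⟩ ⟨VV x 0 1, hKM (cen_VV hx 0 1).1⟩
    (fun k => ⟨x 0 7 (r0 * q ^ k), hKM (c7 _).1⟩) (fun k => ⟨x 0 1 (r0 * q ^ k), n01 _⟩)
    (fun k => ⟨x 0 2 (r0 * q ^ k), n02 _⟩) ⟨aa x, na⟩ ⟨gg x p q, ng⟩
    (cen _ (cen_VV hx 1 0)) (cen _ (cen_VV hx 0 1)) (fun k => cen _ (c7 _)) ?_ ?_ ?_ ?_ ?_ ?_ ?_ ?_
    ?_ hM'
  · refine Subtype.ext ?_
    show x 0 7 (r0 * q ^ 0) = 1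
    rw [pow_zero, mul_one, h1]
  · intro h
    apply h2
    have := congrArg Subtype.val h
    simpa using this
  · intro k
    refine Subtype.ext ?_
    show x 0 7 (r0 * q ^ (k + 1)) ^ p = x 0 7 (r0 * q ^ k)
    rw [pow_eq hx (by decide)]
    congr 1
    linear_combination r0 * q ^ k * hq
  · intro k
    exact Subtype.ext (conj_y1 hx _)
  · intro k
    exact Subtype.ext (conj_y2 hx _)
  · refine Subtype.ext ?_
    show aa x * VV x 1 0 * (aa x)⁻¹ = VV x 0 1
    rw [conj_aa hx, neg_zero, sub_zero]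
  · refine Subtype.ext ?_
    show aa x * VV x 0 1 * (aa x)⁻¹ = (VV x 1 0 * VV x 0 1)⁻¹
    rw [conj_aa hx, VV_mul hx, VV_inv hx]
    congr 1 <;> ring
  · refine Subtype.ext ?_
    show gg x p q * VV x 1 0 * (gg x p q)⁻¹ = VV x 1 0 ^ p
    rw [conj_gg hx hq, VV_pow hx]
    congr 1
    ring
  · refine Subtype.ext ?_
    show gg x p q * VV x 0 1 ^ p * (gg x p q)⁻¹ = VV x 0 1
    rw [VV_pow hx, conj_gg hx hq]
    congr 1
    · ring
    · linear_combination hq

theorem t_kt : S_KT := Pool.Agent.N46.HS.t_kt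
  (Pool.Agent.N853.HS.t_rel Pool.Agent.N478.HS.t_meas Pool.Agent.N558.HS.t_real
    Pool.Agent.N711.HS.PAD.t_pad)
  (Pool.Agent.N495.HS.t_hex Pool.Agent.N50.HS.HEIS.t_heis Pool.Agent.N50.HS.OCT.t_oct)
  Pool.Agent.N433.HS.t_bg

/-- **Groups with the relations of Thom's group are not sofic.** -/
theorem t_main : S_MAIN :=
  main_of' (Pool.Agent.N769.KT.b_from_a (thmA_of Pool.Agent.N303.KT.t_ord)) t_kt

end

end Pool.Agent.N298.HS
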