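import Pool.Agent.N298.HS.StmB
import Pool.Agent.H21R2.Defs

/-!
# Project HS (Thom's group is not sofic): statements, part C (groups)
-/

set_option autoImplicit false

namespace Pool.Agent.N298.HS

open Pool.Agent.H21R2 (IsSofic)

/-- the block of an index -/
def blk (i : Fin 8) : ℕ := ![0, 1, 1, 1, 2, 2, 2, 3] i

/-- the roots of the group `Γ` -/
def RP (i j : Fin 8) : Prop := i ≠ j ∧ blk i ≤ blk j

/-- MAIN: a group with the relations of Thom's group is not sofic. -/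
def S_MAIN : Prop :=
  ∀ (p : ℕ), p.Prime → ∀ (R : Type) [CommRing R] [Countable R] (q r0 : R),
    (p : R) * q = 1 → (∀ r : R, ∃ (k : ℕ) (n : ℤ), (p : R) ^ k * r = n) →
    ∀ (P : Type) [Group P] (x : Fin 8 → Fin 8 → R → P), Rels RP x →
      x 0 7 r0 = 1 → x 0 7 (r0 * q) ≠ 1 → ¬ IsSofic P

/-- SOF: the two definitions of soficity. -/
def S_SOF : Prop :=
  ∀ (G : Type) [Group G],
    (∀ F : Finset G, ∀ ε : ℝ, 0 < ε →
      ∃ n : ℕ, 1 ≤ n ∧ ∃ φ : G → Equiv.Perm (Fin n),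
        (∀ g ∈ F, ∀ h ∈ F, (1 - ε) * (n : ℝ) ≤
          ((Finset.univ.filter (fun x : Fin n => φ (g * h) x = (φ g * φ h) x)).card : ℝ)) ∧
        (∀ g ∈ F, g ≠ 1 →
          ((Finset.univ.filter (fun x : Fin n => φ g x = x)).card : ℝ) ≤ ε * (n : ℝ))) →
    IsSofic G

/-- The ring `ℤ[1/2]` -/
abbrev R2 : Type := Localization.Away ((2 : ℕ) : ℤ)

/-- The condition which defines the group `Γ` in the frozen statement, for `p = 2`. -/
def IsGam (Γ : Subgroup (Matrix.SpecialLinearGroup (Fin 8) R2)) : Prop :=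
  ∀ g : Matrix.SpecialLinearGroup (Fin 8) R2, g ∈ Γ ↔
     ((∀ i j : Fin 8,
        ((i.val = 7 ∧ j.val < 7) ∨ (4 ≤ i.val ∧ j.val < 4) ∨ (1 ≤ i.val ∧ j.val < 1)) →
          (g : Matrix (Fin 8) (Fin 8) R2) i j = 0) ∧
      (g : Matrix (Fin 8) (Fin 8) R2) 0 0 = 1 ∧
      (g : Matrix (Fin 8) (Fin 8) R2) 7 7 = 1 ∧
      (Matrix.of ![
        ![(g : Matrix (Fin 8) (Fin 8) R2) 1 1,
          (g : Matrix (Fin 8) (Fin 8) R2) 1 2,
          (g : Matrix (Fin 8) (Fin 8) R2) 1 3],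
        ![(g : Matrix (Fin 8) (Fin 8) R2) 2 1,
          (g : Matrix (Fin 8) (Fin 8) R2) 2 2,
          (g : Matrix (Fin 8) (Fin 8) R2) 2 3],
        ![(g : Matrix (Fin 8) (Fin 8) R2) 3 1,
          (g : Matrix (Fin 8) (Fin 8) R2) 3 2,
          (g : Matrix (Fin 8) (Fin 8) R2) 3 3]]).det = 1)

/-- GRP: Thom's group for `p = 2` and the subgroup `Z = ℤ` of its centre `ℤ[1/2]`. -/
def S_GRP : Prop :=
  ∃ Γ : Subgroup (Matrix.SpecialLinearGroup (Fin 8) R2), IsGam Γ ∧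
    ∃ Z : Subgroup Γ,
      (∀ z ∈ Z, ∀ i j : Fin 8, ¬ (i = 0 ∧ j = 7) →
        (((z : Γ) : Matrix.SpecialLinearGroup (Fin 8) R2) : Matrix (Fin 8) (Fin 8) R2) i j =
          (1 : Matrix (Fin 8) (Fin 8) R2) i j) ∧
      Nonempty (Z ≃* Multiplicative ℤ) ∧
      ∃ (_ : Z.Normal) (q : R2) (x : Fin 8 → Fin 8 → R2 → Γ ⧸ Z),
        ((2 : ℕ) : R2) * q = 1 ∧ (∀ r : R2, ∃ (k : ℕ) (n : ℤ), ((2 : ℕ) : R2) ^ k * r = n) ∧
        Countable R2 ∧ Rels RP x ∧ x 0 7 1 = 1 ∧ x 0 7 (1 * q) ≠ 1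

end Pool.Agent.N298.HS
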