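import Pool.Agent.N298.HS.StmA
import Pool.Agent.N298.HS.StmC

/-!
# Project HS: groups with the relations of Thom's group are not sofic
-/

set_option autoImplicit false

namespace Pool.Agent.N298.HS

open Finset
open Pool.Agent.N303.KS
open Pool.Agent.H21R2 (IsSofic)
open Pool.Agent.W661.RC (HasT)

instance : DecidableRel RP := fun i j => inferInstanceAs (Decidable (i ≠ j ∧ blk i ≤ blk j))

noncomputable section

set_option linter.unusedSectionVars false

theorem rk_rp {i j : Fin 8} (h : RK i j) : RP i j := by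
  revert h
  unfold RK RP blk
  fin_cases i <;> fin_cases j <;> simp

/-- the subgroup `K` -/
def KK {R P : Type} [Group P] (x : Fin 8 → Fin 8 → R → P) : Subgroup P :=
  Subgroup.closure {g | ∃ i j r, RK i j ∧ g = x i j r}

section

variable {R P : Type} [CommRing R] [Group P] {x : Fin 8 → Fin 8 → R → P}

theorem mem_KK {i j : Fin 8} (h : RK i j) (r : R) : x i j r ∈ KK x :=
  Subgroup.subset_closure ⟨i, j, r, h, rfl⟩

theorem hasT_KK (hK : S_KT) {p : ℕ} (hp : p.Prime) [Countable R] (q : R) (hq : (p : R) * q = 1)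
    (hR : ∀ r : R, ∃ (k : ℕ) (n : ℤ), (p : R) ^ k * r = n) (hx : Rels RP x) : HasT (KK x) := by
  classical
  refine hK p hp R q hq hR (KK x) (fun i j r => if h : RK i j then ⟨x i j r, mem_KK h r⟩ else 1)
    ⟨?_, ?_, ?_⟩ ?_
  · intro i j h r s
    simp only [dif_pos h]
    exact Subtype.ext (hx.add i j (rk_rp h) r s)
  · intro i j k l h h' hjk hil r s
    simp only [dif_pos h, dif_pos h']
    exact Subtype.ext (hx.com i j k l (rk_rp h) (rk_rp h') hjk hil r s)
  · intro i j l h h' hil r s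
    have h3 : RK i l := ⟨h.1, h'.2.1, hil⟩
    simp only [dif_pos h, dif_pos h', dif_pos h3]
    exact Subtype.ext (hx.mul i j l (rk_rp h) (rk_rp h') hil r s)
  · have h0 := Subgroup.closure_closure_coe_preimage (k := {g : P | ∃ i j r, RK i j ∧ g = x i j r})
    rw [eq_top_iff]
    refine le_trans (le_of_eq h0.symm) ?_
    apply Subgroup.closure_mono
    rintro ⟨g, hg⟩ ⟨i, j, r, h, hgr⟩
    refine ⟨i, j, r, h, ?_⟩
    simp only [dif_pos h]
    exact Subtype.ext hgr

theorem zero_eq (hx : Rels RP x) {i j : Fin 8} (h : RP i j) : x i j 0 = 1 := by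
  have h1 := hx.add i j h 0 0
  rw [add_zero] at h1
  simpa using h1

theorem neg_eq (hx : Rels RP x) {i j : Fin 8} (h : RP i j) (r : R) : x i j (-r) = (x i j r)⁻¹ := by
  rw [eq_inv_iff_mul_eq_one, ← hx.add i j h, neg_add_cancel, zero_eq hx h]

theorem pow_eq (hx : Rels RP x) {i j : Fin 8} (h : RP i j) (r : R) (n : ℕ) :
    x i j r ^ n = x i j (n * r) := by
  induction n with
  | zero => rw [pow_zero, Nat.cast_zero, zero_mul, zero_eq hx h]
  | succ n ih => rw [pow_succ, ih, ← hx.add i j h]; congr 1; push_cast; ring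

/-- elements of the centre of `K` -/
def Cen (x : Fin 8 → Fin 8 → R → P) (l : P) : Prop := l ∈ KK x ∧ ∀ k ∈ KK x, l * k = k * l

theorem Cen.one : Cen x 1 := ⟨one_mem _, fun k _ => by rw [one_mul, mul_one]⟩

theorem Cen.mul {a b : P} (ha : Cen x a) (hb : Cen x b) : Cen x (a * b) :=
  ⟨mul_mem ha.1 hb.1, fun k hk => by rw [mul_assoc, hb.2 k hk, ← mul_assoc, ha.2 k hk, mul_assoc]⟩

theorem Cen.inv {a : P} (ha : Cen x a) : Cen x a⁻¹ :=
  ⟨inv_mem ha.1, fun k hk => by
    rw [inv_mul_eq_iff_eq_mul, ← mul_assoc, ha.2 k hk, mul_assoc, mul_inv_cancel, mul_one]⟩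

theorem Cen.pow {a : P} (ha : Cen x a) (n : ℕ) : Cen x (a ^ n) := by
  induction n with
  | zero => rw [pow_zero]; exact Cen.one
  | succ n ih => rw [pow_succ]; exact ih.mul ha

theorem cen_x (hx : Rels RP x) {i : Fin 8} (hi : i.val ≤ 3) (r : R) : Cen x (x i 7 r) := by
  have h7 : RK i 7 := ⟨by omega, by decide, by rintro rfl; exact absurd hi (by decide)⟩
  refine ⟨mem_KK h7 r, fun k hk => ?_⟩
  induction hk using Subgroup.closure_induction with
  | mem y hy =>
    obtain ⟨a, b, s, hab, rfl⟩ := hy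
    refine hx.com i 7 a b (rk_rp h7) (rk_rp hab) ?_ ?_ r s
    · rintro rfl
      exact absurd hab.1 (by decide)
    · rintro rfl
      have := hab.2.1
      omega
  | one => rw [one_mul, mul_one]
  | mul y z _ _ hy hz => rw [← mul_assoc, hy, mul_assoc, hz, mul_assoc]
  | inv y _ hy => rw [mul_inv_eq_iff_eq_mul, mul_assoc, hy, inv_mul_cancel_left]

theorem conj_x (hx : Rels RP x) {a b : Fin 8} (hab : RP a b) (ha : a.val ≤ 3) (t : R) :
    ∀ k ∈ KK x, x a b t * k * (x a b t)⁻¹ ∈ KK x := by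
  intro k hk
  induction hk using Subgroup.closure_induction with
  | mem y hy =>
    obtain ⟨i, j, s, hij, rfl⟩ := hy
    have haj : a ≠ j := by
      rintro rfl
      have := hij.2.1
      omega
    by_cases hb : b = i
    · subst hb
      have h1 : RK a j := ⟨by omega, hij.2.1, haj⟩
      rw [hx.mul a b j hab (rk_rp hij) haj t s, mul_assoc, mul_inv_cancel, mul_one]
      exact mul_mem (mem_KK h1 _) (mem_KK hij _)
    · rw [hx.com a b i j hab (rk_rp hij) hb haj t s, mul_assoc, mul_inv_cancel, mul_one]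
      exact mem_KK hij _
  | one => rw [mul_one, mul_inv_cancel]; exact one_mem _
  | mul y z _ _ hy hz =>
    have : x a b t * (y * z) * (x a b t)⁻¹ = (x a b t * y * (x a b t)⁻¹) *
        (x a b t * z * (x a b t)⁻¹) := by group
    rw [this]
    exact mul_mem hy hz
  | inv y _ hy =>
    have : x a b t * y⁻¹ * (x a b t)⁻¹ = (x a b t * y * (x a b t)⁻¹)⁻¹ := by group
    rw [this]
    exact inv_mem hy

theorem norm_x (hx : Rels RP x) {a b : Fin 8} (hab : RP a b) (ha : a.val ≤ 3) (t : R) :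
    x a b t ∈ Subgroup.normalizer (KK x : Set P) := by
  rw [Subgroup.mem_normalizer_iff]
  intro k
  refine ⟨fun hk => conj_x hx hab ha t k hk, fun hk => ?_⟩
  have h1 := conj_x hx hab ha (-t) _ hk
  rw [neg_eq hx hab, inv_inv] at h1
  have : (x a b t)⁻¹ * (x a b t * k * (x a b t)⁻¹) * x a b t = k := by group
  rwa [this] at h1

/-- the vectors in the rows 1 and 2 -/
def VV (x : Fin 8 → Fin 8 → R → P) (r s : R) : P := x 1 7 r * x 2 7 s

theorem conjX (hx : Rels RP x) (t r s : R) :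
    x 1 2 t * VV x r s * (x 1 2 t)⁻¹ = VV x (r + t * s) s := by
  have h1 : x 1 2 t * x 1 7 r = x 1 7 r * x 1 2 t :=
    hx.com 1 2 1 7 (by decide) (by decide) (by decide) (by decide) t r
  have h2 : x 1 2 t * x 2 7 s = x 1 7 (t * s) * x 2 7 s * x 1 2 t :=
    hx.mul 1 2 7 (by decide) (by decide) (by decide) t s
  rw [VV, VV, ← mul_assoc, h1, mul_assoc (x 1 7 r), h2, hx.add 1 7 (by decide)]
  group

theorem conjY (hx : Rels RP x) (t r s : R) :
    x 2 1 t * VV x r s * (x 2 1 t)⁻¹ = VV x r (s + t * r) := by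
  have h1 : x 2 1 t * x 2 7 s = x 2 7 s * x 2 1 t :=
    hx.com 2 1 2 7 (by decide) (by decide) (by decide) (by decide) t s
  have h2 : x 2 1 t * x 1 7 r = x 2 7 (t * r) * x 1 7 r * x 2 1 t :=
    hx.mul 2 1 7 (by decide) (by decide) (by decide) t r
  have h3 : x 2 7 (t * r) * x 1 7 r = x 1 7 r * x 2 7 (t * r) :=
    hx.com 2 7 1 7 (by decide) (by decide) (by decide) (by decide) _ _
  rw [VV, VV, ← mul_assoc, h2, h3, mul_assoc (x 1 7 r * x 2 7 (t * r)), h1, add_comm s,
    hx.add 2 7 (by decide)]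
  group

/-- the element of order three -/
def aa (x : Fin 8 → Fin 8 → R → P) : P := x 1 2 (-1) * x 2 1 1 * x 1 2 (-1) * x 1 2 (-1)

/-- the diagonal element -/
def gg (x : Fin 8 → Fin 8 → R → P) (p : ℕ) (q : R) : P :=
  x 1 2 (p : R) * x 2 1 (-q) * x 1 2 (p : R) * x 1 2 (-1) * x 2 1 1 * x 1 2 (-1)

theorem conj_mul' (a b v : P) : a * b * v * (a * b)⁻¹ = a * (b * v * b⁻¹) * a⁻¹ := by group

theorem conj_aa (hx : Rels RP x) (r s : R) :
    aa x * VV x r s * (aa x)⁻¹ = VV x (-s) (r - s) := by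
  rw [aa, conj_mul', conjX hx, conj_mul', conjX hx, conj_mul', conjY hx, conjX hx]
  congr 1 <;> ring

theorem conj_gg (hx : Rels RP x) {p : ℕ} {q : R} (hq : (p : R) * q = 1) (r s : R) :
    gg x p q * VV x r s * (gg x p q)⁻¹ = VV x (p * r) (q * s) := by
  rw [gg, conj_mul', conjX hx, conj_mul', conjY hx, conj_mul', conjX hx, conj_mul', conjX hx,
    conj_mul', conjY hx, conjX hx]
  congr 1
  · linear_combination (-(p : R) * r + s) * hq
  · linear_combination (-r) * hq

theorem VV_mul (hx : Rels RP x) (r s r' s' : R) :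
    VV x r s * VV x r' s' = VV x (r + r') (s + s') := by
  have h : x 2 7 s * x 1 7 r' = x 1 7 r' * x 2 7 s :=
    hx.com 2 7 1 7 (by decide) (by decide) (by decide) (by decide) _ _
  rw [VV, VV, VV, hx.add 1 7 (by decide), hx.add 2 7 (by decide), mul_assoc, ← mul_assoc (x 2 7 s),
    h]
  group

theorem VV_zero (hx : Rels RP x) : VV x 0 0 = 1 := by
  rw [VV, zero_eq hx (by decide), zero_eq hx (by decide), one_mul]

theorem VV_inv (hx : Rels RP x) (r s : R) : (VV x r s)⁻¹ = VV x (-r) (-s) := by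
  rw [inv_eq_iff_mul_eq_one, VV_mul hx, add_neg_cancel, add_neg_cancel, VV_zero hx]

theorem VV_pow (hx : Rels RP x) (r s : R) (n : ℕ) : VV x r s ^ n = VV x (n * r) (n * s) := by
  induction n with
  | zero => rw [pow_zero, Nat.cast_zero, zero_mul, zero_mul, VV_zero hx]
  | succ n ih => rw [pow_succ, ih, VV_mul hx]; congr 1 <;> push_cast <;> ring

theorem cen_VV (hx : Rels RP x) (r s : R) : Cen x (VV x r s) :=
  (cen_x hx (by decide) r).mul (cen_x hx (by decide) s)

theorem conj_y1 (hx : Rels RP x) (t : R) :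
    x 0 1 t * VV x 1 0 * (x 0 1 t)⁻¹ = VV x 1 0 * x 0 7 t := by
  have h0 : VV x 1 0 = x 1 7 1 := by rw [VV, zero_eq hx (by decide), mul_one]
  have h1 := hx.mul 0 1 7 (by decide) (by decide) (by decide) t 1
  have h2 : x 0 7 t * x 1 7 1 = x 1 7 1 * x 0 7 t :=
    hx.com 0 7 1 7 (by decide) (by decide) (by decide) (by decide) _ _
  rw [mul_one] at h1
  rw [h0, h1, h2]
  group

theorem conj_y2 (hx : Rels RP x) (t : R) :
    x 0 2 t * VV x 0 1 * (x 0 2 t)⁻¹ = VV x 0 1 * x 0 7 t := by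
  have h0 : VV x 0 1 = x 2 7 1 := by rw [VV, zero_eq hx (by decide), one_mul]
  have h1 := hx.mul 0 2 7 (by decide) (by decide) (by decide) t 1
  have h2 : x 0 7 t * x 2 7 1 = x 2 7 1 * x 0 7 t :=
    hx.com 0 7 2 7 (by decide) (by decide) (by decide) (by decide) _ _
  rw [mul_one] at h1
  rw [h0, h1, h2]
  group

theorem com_07 (hx : Rels RP x) (t r s : R) : VV x r s * x 0 7 t = x 0 7 t * VV x r s :=
  (cen_VV hx r s).2 _ (mem_KK ⟨by decide, by decide, by decide⟩ t)

end

/-- **MAIN**: groups with the relations of Thom's group are not sofic. -/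
theorem main_of (hO : S_ORD) (hP : S_PROB) (hK : S_KT) : S_MAIN := by
  classical
  intro p hp R _ _ q r0 hq hR P _ x hx h1 h2 hS
  obtain ⟨N, δ, hδ, hN⟩ := hP p hp
  have hqk : ∀ k : ℕ, (p : R) ^ k * q ^ k = 1 := fun k => by rw [← mul_pow, hq, one_pow]
  set e1 : P := VV x 1 0 with he1
  set e2 : P := VV x 0 1 with he2
  set c : ℕ → P := fun k => x 0 7 (r0 * q ^ k) with hc
  -- finite sets
  set FL : Finset P := ((({1, e1⁻¹, (e1 * e2)⁻¹, e1 * e2} : Finset P) ∪
    (range (p + 1)).image fun j => e1 ^ j) ∪ (range (p + 1)).image fun j => e2 ^ j) ∪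
    (range (N + 1)).biUnion fun k => {e1 * c k, e2 * c k} ∪
      (range (p ^ k + 1)).image fun j => c k ^ j with hFL
  have m1 : (1 : P) ∈ FL := by simp [hFL]
  have mi1 : e1⁻¹ ∈ FL := by simp [hFL]
  have mi12 : (e1 * e2)⁻¹ ∈ FL := by
    simp only [hFL, mem_union, mem_insert, mem_singleton]; tauto
  have m12 : e1 * e2 ∈ FL := by
    simp only [hFL, mem_union, mem_insert, mem_singleton]; tauto
  have mp1 : ∀ j ≤ p, e1 ^ j ∈ FL := fun j hj => by
    simp only [hFL, mem_union, mem_image, mem_range]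
    exact Or.inl (Or.inl (Or.inr ⟨j, by omega, rfl⟩))
  have mp2 : ∀ j ≤ p, e2 ^ j ∈ FL := fun j hj => by
    simp only [hFL, mem_union, mem_image, mem_range]
    exact Or.inl (Or.inr ⟨j, by omega, rfl⟩)
  have mc : ∀ k ≤ N, ∀ j ≤ p ^ k, c k ^ j ∈ FL := fun k hk j hj => by
    simp only [hFL, mem_union, mem_biUnion, mem_image, mem_range]
    exact Or.inr ⟨k, by omega, Or.inr ⟨j, by omega, rfl⟩⟩
  have mc1 : ∀ k ≤ N, e1 * c k ∈ FL := fun k hk => by
    simp only [hFL, mem_union, mem_biUnion, mem_insert, mem_singleton, mem_range]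
    exact Or.inr ⟨k, by omega, Or.inl (Or.inl rfl)⟩
  have mc2 : ∀ k ≤ N, e2 * c k ∈ FL := fun k hk => by
    simp only [hFL, mem_union, mem_biUnion, mem_insert, mem_singleton, mem_range]
    exact Or.inr ⟨k, by omega, Or.inl (Or.inr rfl)⟩
  have me1 : e1 ∈ FL := by simpa using mp1 1 hp.one_le
  have me2 : e2 ∈ FL := by simpa using mp2 1 hp.one_le
  have hcen : ∀ l ∈ FL, Cen x l := by
    have c1 : Cen x e1 := cen_VV hx 1 0
    have c2 : Cen x e2 := cen_VV hx 0 1
    have c3 : ∀ k, Cen x (c k) := fun k => cen_x hx (by decide) _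
    intro l hl
    simp only [hFL, mem_union, mem_insert, mem_singleton, mem_image, mem_range, mem_biUnion] at hl
    rcases hl with (((rfl | rfl | rfl | rfl) | ⟨j, -, rfl⟩) | ⟨j, -, rfl⟩) |
      ⟨k, -, (rfl | rfl) | ⟨j, -, rfl⟩⟩
    · exact Cen.one
    · exact c1.inv
    · exact (c1.mul c2).inv
    · exact c1.mul c2
    · exact c1.pow j
    · exact c2.pow j
    · exact c1.mul (c3 k)
    · exact c2.mul (c3 k)
    · exact (c3 k).pow j
  set a : P := aa x with ha
  set g : P := gg x p q with hg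
  set y1 : ℕ → P := fun k => x 0 1 (r0 * q ^ k) with hy1
  set y2 : ℕ → P := fun k => x 0 2 (r0 * q ^ k) with hy2
  set FG : Finset P := {a, g} ∪ ((range (N + 1)).image y1 ∪ (range (N + 1)).image y2) with hFG
  have ma : a ∈ FG := by simp [hFG]
  have mg : g ∈ FG := by simp [hFG]
  have my1 : ∀ k ≤ N, y1 k ∈ FG := fun k hk => by
    simp only [hFG, mem_union, mem_image, mem_range]
    exact Or.inr (Or.inl ⟨k, by omega, rfl⟩)
  have my2 : ∀ k ≤ N, y2 k ∈ FG := fun k hk => by
    simp only [hFG, mem_union, mem_image, mem_range]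
    exact Or.inr (Or.inr ⟨k, by omega, rfl⟩)
  have n12 : ∀ t : R, x 1 2 t ∈ Subgroup.normalizer (KK x : Set P) := norm_x hx (by decide) (by decide)
  have n21 : ∀ t : R, x 2 1 t ∈ Subgroup.normalizer (KK x : Set P) := norm_x hx (by decide) (by decide)
  have hnorm : ∀ h ∈ FG, h ∈ Subgroup.normalizer (KK x : Set P) := by
    intro h hh
    simp only [hFG, mem_union, mem_insert, mem_singleton, mem_image] at hh
    rcases hh with (rfl | rfl) | ⟨k, -, rfl⟩ | ⟨k, -, rfl⟩
    · exact mul_mem (mul_mem (mul_mem (n12 _) (n21 _)) (n12 _)) (n12 _)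
    · exact mul_mem (mul_mem (mul_mem (mul_mem (mul_mem (n12 _) (n21 _)) (n12 _)) (n12 _))
        (n21 _)) (n12 _)
    · exact norm_x hx (by decide) (by decide) _
    · exact norm_x hx (by decide) (by decide) _
  set M : ℝ := 2 * N + 5 with hM
  have hM0 : 0 < M := by positivity
  obtain ⟨d, hd, s, Q, _, _, φ, B, hB, hφ⟩ := hO P hS (KK x) (hasT_KK hK hp q hq hR hx) FL FG hcen
    (fun h hh k => by
      have := (Subgroup.mem_normalizer_iff.1 (hnorm h hh)) k
      exact this) (δ / M) (by positivity)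
  -- the bad set
  set B' : Fin d → Prop := fun y => (B y ∨ B (s a y) ∨ B (s g y)) ∨
    ((∃ k ∈ range (N + 1), B (s (y1 k) y)) ∨ ∃ k ∈ range (N + 1), B (s (y2 k) y)) with hB'
  have hB'c : ct B' ≤ δ * d := by
    have e1 : ct B' ≤ (ct B + (ct B + ct B)) +
        ((∑ k ∈ range (N + 1), ct B) + ∑ k ∈ range (N + 1), ct B) := by
      refine (ct_le_add (q := fun y => B y ∨ B (s a y) ∨ B (s g y))
        (r := fun y => (∃ k ∈ range (N + 1), B (s (y1 k) y)) ∨
          ∃ k ∈ range (N + 1), B (s (y2 k) y)) fun y hy => hy).trans (add_le_add ?_ ?_)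
      · refine (ct_le_add (q := B) (r := fun y => B (s a y) ∨ B (s g y)) fun y hy => hy).trans
          (add_le_add le_rfl ?_)
        refine (ct_le_add (q := fun y => B (s a y)) (r := fun y => B (s g y))
          fun y hy => hy).trans (add_le_add ?_ ?_)
        · exact le_of_eq (ct_perm B (s a))
        · exact le_of_eq (ct_perm B (s g))
      · refine (ct_le_add (q := fun y => ∃ k ∈ range (N + 1), B (s (y1 k) y))
          (r := fun y => ∃ k ∈ range (N + 1), B (s (y2 k) y)) fun y hy => hy).trans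
          (add_le_add ?_ ?_)
        · refine (ct_le_sum (range (N + 1)) (fun k y => B (s (y1 k) y)) fun y hy => hy).trans
            (sum_le_sum fun k _ => le_of_eq (ct_perm B (s (y1 k))))
        · refine (ct_le_sum (range (N + 1)) (fun k y => B (s (y2 k) y)) fun y hy => hy).trans
            (sum_le_sum fun k _ => le_of_eq (ct_perm B (s (y2 k))))
    have e2 : (ct B + (ct B + ct B)) +
        ((∑ k ∈ range (N + 1), ct B) + ∑ k ∈ range (N + 1), ct B) = M * ct B := by
      rw [sum_const, card_range, nsmul_eq_mul, hM]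
      push_cast
      ring
    rw [e2] at e1
    refine e1.trans ((mul_le_mul_of_nonneg_left hB hM0.le).trans (le_of_eq ?_))
    field_simp
  -- facts outside of `B`
  have k1 : ∀ y, ¬ B y → φ y 1 = 1 := fun y hy => by
    have := (hφ y hy).1 1 m1 1 m1 (by rw [mul_one]; exact m1)
    rw [mul_one] at this
    simpa using this
  have kinv : ∀ y, ¬ B y → ∀ l ∈ FL, l⁻¹ ∈ FL → φ y l⁻¹ = (φ y l)⁻¹ := fun y hy l hl hl' => by
    rw [eq_inv_iff_mul_eq_one, ← (hφ y hy).1 _ hl' _ hl (by rw [inv_mul_cancel]; exact m1),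
      inv_mul_cancel, k1 y hy]
  have kpow : ∀ y, ¬ B y → ∀ (l : P) (n : ℕ), (∀ j ≤ n, l ^ j ∈ FL) → φ y (l ^ n) = φ y l ^ n := by
    intro y hy l n
    induction n with
    | zero => intro _; rw [pow_zero, pow_zero, k1 y hy]
    | succ n ih =>
      intro h
      rw [pow_succ, pow_succ, ← ih fun j hj => h j (by omega)]
      exact (hφ y hy).1 _ (h n (by omega)) _ (by simpa using h 1 (by omega))
        (by rw [← pow_succ]; exact h (n + 1) le_rfl)
  have kc : ∀ y, ¬ B y → ∀ k ≤ N, orderOf (φ y (c k)) = p ^ k := by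
    intro y hy k hk
    have f1 : φ y (c k) ^ p ^ k = 1 := by
      rw [← kpow y hy _ _ fun j hj => mc k hk j hj, hc]
      simp only
      rw [pow_eq hx (by decide)]
      have : ((p ^ k : ℕ) : R) * (r0 * q ^ k) = r0 := by
        push_cast
        linear_combination r0 * hqk k
      rw [this, h1, k1 y hy]
    rcases k with _ | k
    · rw [pow_zero, pow_one] at f1
      rw [f1, orderOf_one, pow_zero]
    · have := Fact.mk hp
      refine orderOf_eq_prime_pow ?_ f1
      have hle : p ^ k ≤ p ^ (k + 1) := Nat.pow_le_pow_right hp.pos (Nat.le_succ k)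
      rw [← kpow y hy _ _ fun j hj => mc (k + 1) hk j (hj.trans hle)]
      apply (hφ y hy).2.1 _ (mc (k + 1) hk _ hle)
      rw [hc]
      simp only
      rw [pow_eq hx (by decide)]
      have : ((p ^ k : ℕ) : R) * (r0 * q ^ (k + 1)) = r0 * q := by
        push_cast
        linear_combination r0 * q * hqk k
      rw [this]
      exact h2
  have com12 : e1 * e2 = e2 * e1 := by
    rw [he1, he2, VV_mul hx, VV_mul hx, add_comm, add_comm (0 : R) 1]
  have comc : ∀ (k : ℕ) (r s : R), VV x r s * c k = c k * VV x r s := fun k r s =>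
    com_07 hx _ r s
  have cj : ∀ y, ¬ B y → ∀ u v, u ∈ FL → v ∈ FL → u * v = v * u → u * v ∈ FL →
      Commute (φ y u) (φ y v) := by
    intro y hy u v hu hv huv huv'
    have g1 := (hφ y hy).1 u hu v hv huv'
    have g2 := (hφ y hy).1 v hv u hu (by rw [← huv]; exact huv')
    exact g1.symm.trans ((congrArg (φ y) huv).trans g2)
  have mck : ∀ k ≤ N, c k ∈ FL := fun k hk => by
    simpa using mc k hk 1 (Nat.one_le_pow _ _ hp.pos)
  refine hN d hd Q (fun y => φ y e1) (fun y => φ y e2) (fun y k => φ y (c k)) (s a) (s g)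
    (fun k => s (y1 k)) (fun k => s (y2 k)) B' hB'c ?_ ?_ ?_ ?_ ?_ ?_ ?_ ?_ ?_ ?_
  · intro y hy
    have b0 : ¬ B y := fun h => hy (Or.inl (Or.inl h))
    exact cj y b0 e1 e2 me1 me2 com12 m12
  · intro y hy k hk
    have b0 : ¬ B y := fun h => hy (Or.inl (Or.inl h))
    exact ⟨cj y b0 _ _ me1 (mck k hk) (comc k 1 0) (mc1 k hk),
      cj y b0 _ _ me2 (mck k hk) (comc k 0 1) (mc2 k hk)⟩
  · intro y hy k hk
    have b0 : ¬ B y := fun h => hy (Or.inl (Or.inl h))
    exact kc y b0 k hk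
  · intro y hy k hk
    have b0 : ¬ B y := fun h => hy (Or.inl (Or.inl h))
    have b1 : ¬ B (s (y1 k) y) := fun h =>
      hy (Or.inr (Or.inl ⟨k, mem_range.2 (by omega), h⟩))
    have g0 : y1 k * e1 * (y1 k)⁻¹ = e1 * c k := conj_y1 hx _
    have g1 := (hφ y b0).2.2 (y1 k) (my1 k hk) e1 me1 (by rw [g0]; exact mc1 k hk)
    rw [g0, (hφ _ b1).1 _ me1 _ (mck k hk) (mc1 k hk)] at g1
    exact g1
  · intro y hy k hk
    have b0 : ¬ B y := fun h => hy (Or.inl (Or.inl h))
    have b1 : ¬ B (s (y2 k) y) := fun h =>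
      hy (Or.inr (Or.inr ⟨k, mem_range.2 (by omega), h⟩))
    have g0 : y2 k * e2 * (y2 k)⁻¹ = e2 * c k := conj_y2 hx _
    have g1 := (hφ y b0).2.2 (y2 k) (my2 k hk) e2 me2 (by rw [g0]; exact mc2 k hk)
    rw [g0, (hφ _ b1).1 _ me2 _ (mck k hk) (mc2 k hk)] at g1
    exact g1
  · intro y hy
    have b0 : ¬ B y := fun h => hy (Or.inl (Or.inl h))
    have g0 : a * e1 * a⁻¹ = e2 := by
      rw [ha, he1, he2, conj_aa hx, neg_zero, sub_zero]
    have g1 := (hφ y b0).2.2 a ma e1 me1 (by rw [g0]; exact me2)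
    rw [g0] at g1
    exact g1
  · intro y hy
    have b0 : ¬ B y := fun h => hy (Or.inl (Or.inl h))
    have b1 : ¬ B (s a y) := fun h => hy (Or.inl (Or.inr (Or.inl h)))
    have g0 : a * e2 * a⁻¹ = (e1 * e2)⁻¹ := by
      rw [ha, he1, he2, conj_aa hx, VV_mul hx, VV_inv hx]
      congr 1 <;> ring
    have g1 := (hφ y b0).2.2 a ma e2 me2 (by rw [g0]; exact mi12)
    rw [g0, kinv _ b1 _ m12 mi12, orderOf_inv, (hφ _ b1).1 _ me1 _ me2 m12] at g1
    exact g1
  · intro y hy
    have b0 : ¬ B y := fun h => hy (Or.inl (Or.inl h))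
    have b1 : ¬ B (s a y) := fun h => hy (Or.inl (Or.inr (Or.inl h)))
    have g0 : a * (e1 * e2) * a⁻¹ = e1⁻¹ := by
      rw [ha, he1, he2, VV_mul hx, conj_aa hx, VV_inv hx]
      congr 1 <;> ring
    have g1 := (hφ y b0).2.2 a ma (e1 * e2) m12 (by rw [g0]; exact mi1)
    rw [g0, kinv _ b1 _ me1 mi1, orderOf_inv, (hφ _ b0).1 _ me1 _ me2 m12] at g1
    exact g1
  · intro y hy
    have b0 : ¬ B y := fun h => hy (Or.inl (Or.inl h))
    have b1 : ¬ B (s g y) := fun h => hy (Or.inl (Or.inr (Or.inr h)))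
    have g0 : g * e1 * g⁻¹ = e1 ^ p := by
      rw [hg, he1, conj_gg hx hq, VV_pow hx]
      congr 1 <;> ring
    have g1 := (hφ y b0).2.2 g mg e1 me1 (by rw [g0]; exact mp1 p le_rfl)
    rw [g0, kpow _ b1 _ _ mp1] at g1
    exact g1
  · intro y hy
    have b0 : ¬ B y := fun h => hy (Or.inl (Or.inl h))
    have b1 : ¬ B (s g y) := fun h => hy (Or.inl (Or.inr (Or.inr h)))
    have g0 : g * e2 ^ p * g⁻¹ = e2 := by
      rw [hg, he2, VV_pow hx, conj_gg hx hq]
      congr 1
      · ring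
      · linear_combination hq
    have g1 := (hφ y b0).2.2 g mg (e2 ^ p) (mp2 p le_rfl) (by rw [g0]; exact me2)
    rw [g0, kpow _ b0 _ _ mp2] at g1
    exact g1

end

end Pool.Agent.N298.HS
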